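import Pool.Agent.Helper70.MM.Goals2

/-!
Project MM (MP_91ee6f_gt), packet CBASE: elementary facts about the vertices of a cube.
-/

set_option autoImplicit false

open MeasureTheory Set Metric
open scoped ENNReal RealInnerProductSpace Topology
open Pool.Agent.Results.MP_91ee6f_gt

namespace Pool.Agent.Helper19.MM

open Pool.Agent.Helper70.MM

lemma dist_zero_vert (n : ℕ) {ℓ : ℝ} (hℓ : 0 < ℓ) (T : Finset (Fin n)) :
    dist (0 : En n) (vert n ℓ T) = Real.sqrt (T.card : ℝ) * ℓ := by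
  rw [dist_zero_left, EuclideanSpace.norm_eq]
  have h1 : ∑ i : Fin n, ‖(vert n ℓ T) i‖ ^ 2 = (T.card : ℝ) * ℓ ^ 2 := by
    have h2 : ∀ i : Fin n, ‖(vert n ℓ T) i‖ ^ 2 = if i ∈ T then ℓ ^ 2 else 0 := by
      intro i
      show ‖(if i ∈ T then ℓ else 0 : ℝ)‖ ^ 2 = _
      split_ifs
      · rw [Real.norm_eq_abs, sq_abs]
      · simp
    rw [Finset.sum_congr rfl (fun i _ => h2 i), Finset.sum_ite_mem, Finset.univ_inter,
      Finset.sum_const, nsmul_eq_mul]
  rw [h1, Real.sqrt_mul (Nat.cast_nonneg _), Real.sqrt_sq hℓ.le]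

lemma pv_zero (n : ℕ) {ℓ : ℝ} (hℓ : 0 < ℓ) :
    PV n ℓ 0 = ∑ k ∈ Finset.range (n + 1), (n.choose k : ℝ) * Real.exp (-(Real.sqrt k * ℓ)) := by
  unfold PV
  have h1 : ∀ T : Finset (Fin n), Real.exp (-dist (0 : En n) (vert n ℓ T)) =
      (fun k : ℕ => Real.exp (-(Real.sqrt (k : ℝ) * ℓ))) T.card := by
    intro T
    rw [dist_zero_vert n hℓ]
  have h2 := Finset.sum_powerset_apply_card
    (fun k : ℕ => Real.exp (-(Real.sqrt (k : ℝ) * ℓ))) (x := (Finset.univ : Finset (Fin n)))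
  rw [Finset.powerset_univ, Finset.card_univ, Fintype.card_fin] at h2
  refine (Finset.sum_congr rfl (fun T _ => h1 T)).trans (h2.trans ?_)
  exact Finset.sum_congr rfl (fun k _ => by rw [nsmul_eq_mul])

lemma card_vert (n : ℕ) : (∑ _T : Finset (Fin n), (1 : ℝ≥0∞)) = (2 : ℝ≥0∞) ^ n := by
  rw [Finset.sum_const, Finset.card_univ, Fintype.card_finset, Fintype.card_fin, nsmul_eq_mul,
    mul_one]
  push_cast
  rfl

lemma prob (n : ℕ) (ℓ : ℝ) : IsProbabilityMeasure (vertUnif n ℓ) := by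
  constructor
  unfold vertUnif
  rw [Measure.smul_apply, Measure.finsetSum_apply]
  have h1 : ∀ T : Finset (Fin n), (Measure.dirac (vert n ℓ T)) (univ : Set (En n)) = 1 :=
    fun T => measure_univ
  rw [Finset.sum_congr rfl (fun T _ => h1 T), card_vert, smul_eq_mul]
  exact ENNReal.inv_mul_cancel (by positivity) (by simp)

lemma pot (n : ℕ) (ℓ : ℝ) (x : En n) : potential (vertUnif n ℓ) x = PV n ℓ x / 2 ^ n := by
  unfold potential vertUnif PV
  rw [integral_smul_measure, integral_finsetSum_measure]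
  · rw [Finset.sum_congr rfl (fun T _ => integral_dirac (fun y : En n => Real.exp (-dist x y))
      (vert n ℓ T))]
    rw [ENNReal.toReal_inv, ENNReal.toReal_pow, ENNReal.toReal_ofNat, smul_eq_mul, div_eq_inv_mul]
  · intro T _
    refine integrable_dirac ?_
    exact enorm_lt_top

lemma support_sum {ι : Type*} [DecidableEq ι] (n : ℕ) (s : Finset ι) (μ : ι → Measure (En n)) :
    (∑ i ∈ s, μ i).support = ⋃ i ∈ s, (μ i).support := by
  induction s using Finset.induction_on with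
  | empty => simp
  | insert a s ha ih =>
    rw [Finset.sum_insert ha, Measure.support_add, ih, Finset.set_biUnion_insert]

lemma support_dirac' (n : ℕ) (x : En n) : (Measure.dirac x).support = {x} := by
  ext y
  rw [Measure.mem_support_iff_forall, mem_singleton_iff]
  constructor
  · intro h
    by_contra hne
    have h1 := h {x}ᶜ (isClosed_singleton.isOpen_compl.mem_nhds (by simpa using hne))
    rw [Measure.dirac_apply' _ (measurableSet_singleton x).compl] at h1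
    simp at h1
  · rintro rfl U hU
    have h1 : (1 : ℝ≥0∞) ≤ Measure.dirac y U := by
      have h2 := Measure.le_dirac_apply (s := U) (a := y)
      rwa [indicator_of_mem (mem_of_mem_nhds hU), Pi.one_apply] at h2
    exact lt_of_lt_of_le one_pos h1

lemma supp (n : ℕ) (ℓ : ℝ) : (vertUnif n ℓ).support = range (vert n ℓ) := by
  unfold vertUnif
  have h0 : ((2 : ℝ≥0∞) ^ n)⁻¹ ≠ 0 := ENNReal.inv_ne_zero.2 (by simp)
  have h1 : ∀ μ : Measure (En n), (((2 : ℝ≥0∞) ^ n)⁻¹ • μ).support = μ.support := by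
    intro μ
    ext x
    simp only [Measure.mem_support_iff_forall, Measure.smul_apply, smul_eq_mul, pos_iff_ne_zero,
      mul_ne_zero_iff, h0, ne_eq, not_false_eq_true, true_and]
  rw [h1]
  classical
  rw [support_sum]
  ext x
  simp only [support_dirac', Finset.mem_univ, iUnion_true, mem_iUnion, mem_singleton_iff,
    mem_range]
  exact ⟨fun ⟨T, h⟩ => ⟨T, h.symm⟩, fun ⟨T, h⟩ => ⟨T, h.symm⟩⟩

lemma cube_eq (n : ℕ) (ℓ : ℝ) :
    cube n ℓ = (fun f : Fin n → ℝ => (WithLp.toLp 2 f : En n)) '' Icc (fun _ => 0) (fun _ => ℓ) := by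
  ext x
  constructor
  · intro hx
    refine ⟨fun i => x i, ⟨fun i => (hx i).1, fun i => (hx i).2⟩, ?_⟩
    rfl
  · rintro ⟨f, ⟨h1, h2⟩, rfl⟩ i
    exact ⟨h1 i, h2 i⟩

theorem cbase : CBASE := by
  intro n ℓ hℓ
  refine ⟨pv_zero n hℓ, prob n ℓ, pot n ℓ, supp n ℓ, ?_, ?_, ?_⟩
  · rw [cube_eq]
    exact isCompact_Icc.image (PiLp.continuous_toLp 2 _)
  · exact ⟨0, fun i => ⟨le_rfl, hℓ.le⟩⟩
  · rintro _ ⟨T, rfl⟩ i
    show 0 ≤ (if i ∈ T then ℓ else 0 : ℝ) ∧ (if i ∈ T then ℓ else 0 : ℝ) ≤ ℓ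
    split_ifs
    · exact ⟨hℓ.le, le_rfl⟩
    · exact ⟨le_rfl, hℓ.le⟩

end Pool.Agent.Helper19.MM
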